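import Pool.Agent.Q74.PD.Stm11

/-! Project PD (helper74): Parseval for the characteristic function of the Syracuse random
variable, and the bound of Tao from the mixing estimate. -/

set_option autoImplicit false

namespace Pool.Agent.Q121.PD

open Finset Pool.Agent.Q74.PD

theorem parseval (N : ℕ) (hN : N ≠ 0) (f : ℕ → ℝ) (ω : ℂ) (hω : IsPrimitiveRoot ω N) :
    ∑ ξ ∈ range N, ‖∑ b ∈ range N, (f b : ℂ) * ω ^ (ξ * b)‖ ^ 2 = N * ∑ b ∈ range N, f b ^ 2 := by
  have hnorm : ‖ω‖ = 1 := hω.norm'_eq_one hN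
  have hω0 : ω ≠ 0 := hω.ne_zero hN
  have hconj : (starRingEnd ℂ) ω = ω⁻¹ := by
    rw [Complex.inv_def, Complex.normSq_eq_norm_sq, hnorm]; simp
  have key : ((∑ ξ ∈ range N, ‖∑ b ∈ range N, (f b : ℂ) * ω ^ (ξ * b)‖ ^ 2 : ℝ) : ℂ) =
      ((N * ∑ b ∈ range N, f b ^ 2 : ℝ) : ℂ) := by
    push_cast
    have h1 : ∀ ξ ∈ range N, ((‖∑ b ∈ range N, (f b : ℂ) * ω ^ (ξ * b)‖ : ℝ) : ℂ) ^ 2 =
        ∑ b ∈ range N, ∑ c ∈ range N, (f b : ℂ) * f c * (ω ^ b * (ω⁻¹) ^ c) ^ ξ := by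
      intro ξ _
      rw [← Complex.mul_conj', map_sum, Finset.sum_mul_sum]
      refine Finset.sum_congr rfl fun b _ => Finset.sum_congr rfl fun c _ => ?_
      rw [map_mul, map_pow, hconj, Complex.conj_ofReal, mul_pow, ← pow_mul, ← pow_mul,
        mul_comm ξ b, mul_comm ξ c]
      ring
    rw [Finset.sum_congr rfl h1, Finset.sum_comm]
    rw [Finset.mul_sum]
    refine Finset.sum_congr rfl fun b hb => ?_
    rw [Finset.sum_comm]
    have hb' := Finset.mem_range.1 hb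
    rw [Finset.sum_eq_single b]
    · have : ω ^ b * ω⁻¹ ^ b = 1 := by
        rw [← mul_pow, mul_inv_cancel₀ hω0, one_pow]
      simp only [this, one_pow, mul_one, Finset.sum_const, Finset.card_range, nsmul_eq_mul]
      ring
    · intro c hc hcb
      have hc' := Finset.mem_range.1 hc
      rw [← Finset.mul_sum]
      set r : ℂ := ω ^ b * ω⁻¹ ^ c with hr
      have hr1 : r ≠ 1 := by
        intro h
        have h2 : ω ^ b = ω ^ c := by
          have : r * ω ^ c = ω ^ b := by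
            rw [hr, mul_assoc, ← mul_pow, inv_mul_cancel₀ hω0, one_pow, mul_one]
          rw [← this, h, one_mul]
        exact hcb (hω.pow_inj hc' hb' h2.symm)
      have hrN : r ^ N = 1 := by
        rw [hr, mul_pow, ← pow_mul, ← pow_mul, mul_comm b, mul_comm c, pow_mul, pow_mul,
          hω.pow_eq_one, inv_pow, hω.pow_eq_one]
        simp
      have hg : ∑ ξ ∈ range N, r ^ ξ = 0 := by
        rw [geom_sum_eq hr1, hrN, sub_self, zero_div]
      rw [hg, mul_zero]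
    · intro h
      exact absurd hb h
  exact_mod_cast key

theorem ofReal_three (n : ℕ) : ((3 : ℂ) ^ n) ≠ 0 := pow_ne_zero _ (by norm_num)

theorem psv : S_Psv := by
  intro d n
  have hN : (3 ^ n : ℕ) ≠ 0 := pow_ne_zero _ (by norm_num)
  have hω := Complex.isPrimitiveRoot_exp (3 ^ n) hN
  have h := parseval (3 ^ n) hN (fun b => Dn d n b / 3 ^ n) _ hω
  have e1 : ∀ ξ ∈ range (3 ^ n), ‖chi d n ξ‖ ^ 2 =
      ‖∑ b ∈ range (3 ^ n), ((Dn d n b / 3 ^ n : ℝ) : ℂ) *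
        Complex.exp (2 * Real.pi * Complex.I / (3 ^ n : ℕ)) ^ (ξ * b)‖ ^ 2 := by
    intro ξ _
    congr 2
    unfold chi
    refine Finset.sum_congr rfl fun b _ => ?_
    congr 1
    rw [← Complex.exp_nat_mul]
    congr 1
    push_cast
    field_simp
  rw [Finset.sum_congr rfl e1, h]
  simp only [div_pow]
  rw [← Finset.sum_div]
  push_cast
  have h3 : ((3 : ℝ) ^ n) ≠ 0 := pow_ne_zero _ (by norm_num)
  field_simp

theorem van (g : ℕ → ℂ) (m : ℕ) (hg : ∀ b, g (3 ^ m + b) = g b) (ξ : ℤ) (hξ : ¬ (3 : ℤ) ∣ ξ) :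
    ∑ b ∈ range (3 ^ (m + 1)), g b * Complex.exp (2 * Real.pi * Complex.I * ξ * b / 3 ^ (m + 1)) =
      0 := by
  set F : ℕ → ℂ := fun b => g b * Complex.exp (2 * Real.pi * Complex.I * ξ * b / 3 ^ (m + 1)) with hF
  set ζ : ℂ := Complex.exp (2 * Real.pi * Complex.I * ξ / 3) with hζ
  have h3 : ((3 : ℂ) ^ m) ≠ 0 := ofReal_three m
  have hstep : ∀ b, F (3 ^ m + b) = ζ * F b := by
    intro b
    simp only [hF, hg]
    have : (2 * Real.pi * Complex.I * ξ * ((3 ^ m + b : ℕ) : ℂ) / 3 ^ (m + 1) : ℂ) =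
        2 * Real.pi * Complex.I * ξ / 3 + 2 * Real.pi * Complex.I * ξ * b / 3 ^ (m + 1) := by
      push_cast
      rw [pow_succ]
      field_simp
    rw [this, Complex.exp_add]
    ring
  have hζ1 : ζ ≠ 1 := by
    intro h
    rw [hζ, Complex.exp_eq_one_iff] at h
    obtain ⟨k, hk⟩ := h
    have hpi : (2 * Real.pi * Complex.I : ℂ) ≠ 0 := Complex.two_pi_I_ne_zero
    have h1 : (ξ : ℂ) = 3 * k := by
      have h2 : (2 * Real.pi * Complex.I : ℂ) * ξ = (2 * Real.pi * Complex.I) * (3 * k) := by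
        have := hk
        field_simp at this
        linear_combination (2 * Real.pi * Complex.I : ℂ) * this
      exact mul_left_cancel₀ hpi h2
    exact hξ ⟨k, by exact_mod_cast h1⟩
  have hζ3 : ζ ^ 3 = 1 := by
    rw [hζ, ← Complex.exp_nat_mul, Complex.exp_eq_one_iff]
    exact ⟨ξ, by push_cast; ring⟩
  have hz : 1 + ζ + ζ ^ 2 = 0 := by
    have h1 : (ζ - 1) * (1 + ζ + ζ ^ 2) = 0 := by
      have : (ζ - 1) * (1 + ζ + ζ ^ 2) = ζ ^ 3 - 1 := by ring
      rw [this, hζ3, sub_self]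
    rcases mul_eq_zero.1 h1 with h | h
    · exact absurd (sub_eq_zero.1 h) hζ1
    · exact h
  have e : (3 : ℕ) ^ (m + 1) = 3 ^ m + (3 ^ m + 3 ^ m) := by rw [pow_succ]; ring
  change ∑ b ∈ range (3 ^ (m + 1)), F b = 0
  rw [e, Finset.sum_range_add, Finset.sum_range_add]
  simp only [hstep, ← Finset.mul_sum]
  linear_combination (∑ b ∈ range (3 ^ m), F b) * hz

theorem chi_le (d : ℤ) (n : ℕ) (ξ : ℤ) (g : ℕ → ℂ)
    (hg : ∑ b ∈ range (3 ^ n), g b * Complex.exp (2 * Real.pi * Complex.I * ξ * b / 3 ^ n) = 0) :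
    ‖chi d n ξ‖ ≤ ∑ b ∈ range (3 ^ n), ‖((Dn d n b / 3 ^ n : ℝ) : ℂ) - g b‖ := by
  have h1 : chi d n ξ = ∑ b ∈ range (3 ^ n), (((Dn d n b / 3 ^ n : ℝ) : ℂ) - g b) *
      Complex.exp (2 * Real.pi * Complex.I * ξ * b / 3 ^ n) := by
    simp only [sub_mul, Finset.sum_sub_distrib, hg, sub_zero]
    rfl
  rw [h1]
  refine (norm_sum_le _ _).trans (Finset.sum_le_sum fun b _ => ?_)
  rw [norm_mul]
  have : ‖Complex.exp (2 * Real.pi * Complex.I * ξ * b / 3 ^ n)‖ = 1 := by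
    have e : (2 * Real.pi * Complex.I * ξ * b / 3 ^ n : ℂ) =
        ((2 * Real.pi * ξ * b / 3 ^ n : ℝ) : ℂ) * Complex.I := by
      push_cast
      ring
    rw [e, Complex.norm_exp_ofReal_mul_I]
  rw [this, mul_one]

theorem chb (hD : S_Dlm) (hR : S_Rte) : S_Chb := by
  intro B
  obtain ⟨C, hC, h⟩ := hR B
  refine ⟨C * 2 ^ B + 1, by positivity, fun d hd n hn ξ hξ => ?_⟩
  rcases Nat.exists_eq_add_of_le hn with ⟨m, rfl⟩
  rw [show 1 + m = m + 1 by ring]
  rcases Nat.eq_zero_or_pos m with rfl | hm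
  · have h1 := chi_le d (0 + 1) ξ (fun _ => 0) (by simp)
    refine h1.trans ?_
    have h2 := ((hD d hd 0).2.2 1 0)
    have h3 : ∀ b : ℕ, 0 ≤ Dn d (0 + 1) b := fun b =>
      ((hD d hd (0 + 1)).1 0 b).1.trans ((hD d hd (0 + 1)).1 0 b).2.1
    have h4 : ∑ b ∈ range (3 ^ (0 + 1)), ‖((Dn d (0 + 1) b / 3 ^ (0 + 1) : ℝ) : ℂ) - 0‖ =
        (∑ b ∈ range (3 ^ 1), Dn d (0 + 1) b) / 3 := by
      rw [Finset.sum_div]
      refine Finset.sum_congr (by norm_num) fun b _ => ?_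
      rw [sub_zero, Complex.norm_real, Real.norm_eq_abs, abs_of_nonneg (by
        have := h3 b
        positivity)]
      norm_num
    rw [h4]
    have h5 : ∑ b ∈ range (3 ^ 1), Dn d (0 + 1) b = 3 := by
      have h6 : ∑ j ∈ range (3 ^ 1), Dn d (0 + 1) ((0 : ℤ) + 3 ^ 0 * j) =
          ∑ b ∈ range (3 ^ 1), Dn d (0 + 1) b := by
        refine Finset.sum_congr rfl fun b _ => ?_
        rw [pow_zero, one_mul, zero_add, zero_add]
      rw [← h6, h2]
      simp [Dn]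
    rw [h5]
    have h7 : (0 : ℝ) ≤ C * 2 ^ B := by positivity
    norm_num
    linarith
  · have h1 := chi_le d (m + 1) ξ (fun b => ((Dn d m b / 3 ^ (m + 1) : ℝ) : ℂ))
      (van _ m (fun b => by
        have h2 := (hD d hd m).2.1 b 1
        rw [mul_one] at h2
        have h3 : (((3 ^ m + b : ℕ) : ℕ) : ℤ) = (b : ℤ) + 3 ^ m := by push_cast; ring
        simp only [h3, h2]) ξ hξ)
    have h2 := h d hd m (m + 1) hm (Nat.le_succ m)
    have h3 : ∑ b ∈ range (3 ^ (m + 1)), ‖((Dn d (m + 1) b / 3 ^ (m + 1) : ℝ) : ℂ) -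
        ((Dn d m b / 3 ^ (m + 1) : ℝ) : ℂ)‖ =
        (∑ b ∈ range (3 ^ (m + 1)), |Dn d (m + 1) b - Dn d m b|) / 3 ^ (m + 1) := by
      rw [Finset.sum_div]
      refine Finset.sum_congr rfl fun b _ => ?_
      rw [← Complex.ofReal_sub, Complex.norm_real, Real.norm_eq_abs, ← sub_div, abs_div]
      congr 1
      exact abs_of_pos (by positivity)
    rw [h3] at h1
    have h4 : (∑ b ∈ range (3 ^ (m + 1)), |Dn d (m + 1) b - Dn d m b|) / 3 ^ (m + 1) ≤
        C / (m : ℝ) ^ B := by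
      rw [div_le_iff₀ (by positivity)]
      exact h2
    refine h1.trans (h4.trans ?_)
    have hm' : (0 : ℝ) < m := by exact_mod_cast hm
    have hm1 : (1 : ℝ) ≤ m := by exact_mod_cast hm
    rw [div_le_div_iff₀ (by positivity) (by positivity)]
    have h5 : ((m + 1 : ℕ) : ℝ) ^ B ≤ 2 ^ B * (m : ℝ) ^ B := by
      rw [← mul_pow]
      apply pow_le_pow_left₀ (by positivity)
      push_cast
      linarith
    have h6 : (0 : ℝ) ≤ (m : ℝ) ^ B := by positivity
    nlinarith [mul_le_mul_of_nonneg_left h5 hC.le]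

end Pool.Agent.Q121.PD
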